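import Pool.Agent.Lib.TourE.Ex

/-!
# Oriented trees without long directed paths in arbitrary large tournaments

For all `Δ`, `ℓ` there is `n₀` such that every tournament `H` with at least `n₀` vertices contains
every oriented tree `T` with at most as many vertices as `H` (so in particular every spanning one),
with maximum degree at most `Δ` and without a directed path with more than `ℓ` arcs.
-/

namespace Pool.Agent.Results.MP_b931a8_co.NoLongDirectedPaths

open Finset

/-- `H` is the arc relation of a tournament on `V`: there are no loops, and for distinct `u`, `v`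
exactly one of the arcs `uv`, `vu` is present. -/
def IsTournament {V : Type} (H : V → V → Prop) : Prop :=
  (∀ u, ¬ H u u) ∧ ∀ u v, u ≠ v → (H u v ↔ ¬ H v u)

/-- `T` is the arc relation of an oriented tree on `U`: no loops, never both arcs `xy`, `yx`, and
the underlying simple graph (`x`, `y` adjacent if `T x y` or `T y x`) is a tree. -/
def IsOrientedTree {U : Type} (T : U → U → Prop) : Prop :=
  (∀ x y, T x y → ¬ T y x) ∧ (SimpleGraph.fromRel T).IsTree

open Classical in
/-- Every vertex has at most `Δ` neighbours in the underlying graph. -/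
def MaxDegreeLE {U : Type} [Fintype U] (Δ : ℕ) (T : U → U → Prop) : Prop :=
  ∀ x, (univ.filter fun y => T x y ∨ T y x).card ≤ Δ

/-- There is a directed path with more than `ℓ` arcs: distinct vertices `p 0, …, p (ℓ + 1)` with the
arcs from `p i` to `p (i + 1)`. -/
def HasLongPath {U : Type} (ℓ : ℕ) (T : U → U → Prop) : Prop :=
  ∃ p : ℕ → U, Set.InjOn p (Set.Iic (ℓ + 1)) ∧ ∀ i ≤ ℓ, T (p i) (p (i + 1))

/-- A directed walk in an oriented tree is a path. -/
private theorem walk_inj {U : Type} {T : U → U → Prop} (hT : IsOrientedTree T) (p : ℕ → U)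
    (k : ℕ) (hp : ∀ i < k, T (p i) (p (i + 1))) : Set.InjOn p (Set.Iic k) := by
  classical
  have hne : ∀ x y, T x y → x ≠ y := by
    rintro x y h rfl
    exact hT.1 x x h h
  have hadj : ∀ i < k, (SimpleGraph.fromRel T).Adj (p i) (p (i + 1)) := fun i hi =>
    (SimpleGraph.fromRel_adj T _ _).2 ⟨hne _ _ (hp i hi), Or.inl (hp i hi)⟩
  have hw : ∀ j ≤ k, ∃ w : (SimpleGraph.fromRel T).Walk (p 0) (p j),
      w.support = (List.range (j + 1)).map p ∧
        w.edges = (List.range j).map fun i => s(p i, p (i + 1)) := by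
    intro j
    induction j with
    | zero =>
      intro _
      exact ⟨SimpleGraph.Walk.nil, by simp, by simp⟩
    | succ j ih =>
      intro hj
      obtain ⟨w, h1, h2⟩ := ih (by omega)
      refine ⟨w.concat (hadj j (by omega)), ?_, ?_⟩
      · rw [SimpleGraph.Walk.support_concat, h1, List.range_succ (n := j + 1), List.map_append]
        simp
      · rw [SimpleGraph.Walk.edges_concat, h2, List.range_succ (n := j), List.map_append]
        simp
  obtain ⟨w, h1, h2⟩ := hw k le_rfl
  have hpath : w.IsPath := by
    rw [hT.2.isAcyclic.isPath_iff_isChain, h2, List.isChain_map, List.isChain_range]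
    intro i hi h
    have h3 := hp i (by omega)
    have h4 := hp (i + 1) (by omega)
    rcases Sym2.eq_iff.1 h with ⟨h5, -⟩ | ⟨h5, -⟩
    · exact hne _ _ h3 h5
    · simp only [Nat.succ_eq_add_one] at h5
      rw [h5] at h3
      exact hT.1 _ _ h4 h3
  have hnd := hpath.support_nodup
  rw [h1, List.nodup_map_iff_inj_on List.nodup_range] at hnd
  intro i hi j hj hij
  rw [Set.mem_Iic] at hi hj
  exact hnd i (List.mem_range.2 (by omega)) j (List.mem_range.2 (by omega)) hij

theorem result (Δ ℓ : ℕ) :
    ∃ n₀ : ℕ, ∀ (V : Type) [Fintype V] (H : V → V → Prop), IsTournament H →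
      n₀ ≤ Fintype.card V →
      ∀ (U : Type) [Fintype U] (T : U → U → Prop), IsOrientedTree T → MaxDegreeLE Δ T →
      ¬ HasLongPath ℓ T → Fintype.card U ≤ Fintype.card V →
      ∃ φ : U → V, Function.Injective φ ∧ ∀ x y, T x y → H (φ x) (φ y) := by
  obtain ⟨n₀, h⟩ := Pool.Agent.Lib.TourE.paths Δ ℓ
  refine ⟨n₀, ?_⟩
  intro V _ H hH hn U _ T hT hd hp hc
  refine h V H hn ⟨hH.1, ?_, ?_⟩ U T hc hT.2 hd ?_
  · intro u v huv hvu
    have hne : u ≠ v := by
      rintro rfl
      exact hH.1 u huv
    exact (hH.2 u v hne).1 huv hvu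
  · intro u v hne
    by_cases h1 : H u v
    · exact Or.inl h1
    · right
      exact (hH.2 v u hne.symm).2 h1
  · rintro ⟨p, hp'⟩
    exact hp ⟨p, walk_inj hT p (ℓ + 1) fun i hi => hp' i (by omega), hp'⟩

end Pool.Agent.Results.MP_b931a8_co.NoLongDirectedPaths
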