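import Pool.Agent.Lib.RobT.Bi
import Pool.Agent.Lib.RobT.Sd

/-!
# Bounded degree oriented trees in tournaments without sparse cuts and in their compositions

Let `H` be a tournament on `V` whose vertex set is divided into blocks such that all arcs between
different blocks go forward (one block, or the strong components in their order, or anything in
between).  A block `B` is robust if for every `A ⊆ B` at least `ζ |A| (|B| - |A|)` arcs go from `A`
to `B \ A`, or if all indegrees and outdegrees inside `B` are at least `(1/4 + ζ) |B|`.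

If every block is a single vertex or robust with at least `n₀(ζ, Δ)` vertices, then `H` contains
every oriented tree of maximum degree at most `Δ` with at most `|V|` vertices.  If every block has
at most `K` vertices or is robust, `H` contains every oriented tree of maximum degree at most `Δ`
with at most `|V| - C(ζ, Δ, K)` vertices.
-/

namespace Pool.Agent.Results.MP_b931a8_co.RobustTournaments

open Finset

/-- `H` is the arc relation of a tournament on `V`: there are no loops, and for distinct `u`, `v`
exactly one of the arcs `uv`, `vu` is present. -/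
def IsTournament {V : Type} (H : V → V → Prop) : Prop :=
  (∀ u, ¬ H u u) ∧ ∀ u v, u ≠ v → (H u v ↔ ¬ H v u)

/-- `T` is the arc relation of an oriented tree on `U`: no loops, never both arcs `xy`, `yx`, and
the underlying simple graph (`x`, `y` adjacent if `T x y` or `T y x`) is a tree. -/
def IsOrientedTree {U : Type} (T : U → U → Prop) : Prop :=
  (∀ x y, T x y → ¬ T y x) ∧ (SimpleGraph.fromRel T).IsTree

open Classical in
/-- Every vertex has at most `Δ` neighbours in the underlying graph. -/
def MaxDegreeLE {U : Type} [Fintype U] (Δ : ℕ) (T : U → U → Prop) : Prop :=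
  ∀ x, (univ.filter fun y => T x y ∨ T y x).card ≤ Δ

/-- The block of the vertices with label `i`. -/
def block {V : Type} [Fintype V] (c : V → ℕ) (i : ℕ) : Finset V := univ.filter fun v => c v = i

open Classical in
/-- The number of arcs from `A` to `B \ A`. -/
noncomputable def arcsOut {V : Type} (H : V → V → Prop) (A B : Finset V) : ℕ :=
  ((A ×ˢ (B \ A)).filter fun p => H p.1 p.2).card

/-- For every `A ⊆ B` at least `ζ |A| (|B| - |A|)` arcs go from `A` to `B \ A`. -/
def NoSparseCut {V : Type} (ζ : ℝ) (H : V → V → Prop) (B : Finset V) : Prop :=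
  ∀ A ⊆ B, ζ * A.card * ((B.card : ℝ) - A.card) ≤ arcsOut H A B

open Classical in
/-- All outdegrees and indegrees inside `B` are at least `(1/4 + ζ) |B|`. -/
def LargeDegrees {V : Type} (ζ : ℝ) (H : V → V → Prop) (B : Finset V) : Prop :=
  ∀ v ∈ B, (1 / 4 + ζ) * B.card ≤ ((B.filter fun u => H v u).card : ℝ) ∧
    (1 / 4 + ζ) * B.card ≤ ((B.filter fun u => H u v).card : ℝ)

/-- `B` is robust. -/
def Robust {V : Type} (ζ : ℝ) (H : V → V → Prop) (B : Finset V) : Prop :=
  NoSparseCut ζ H B ∨ LargeDegrees ζ H B

private theorem rob_block {V : Type} [DecidableEq V] {ζ : ℝ} (hζ : 0 < ζ) {H : V → V → Prop}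
    (hR : Pool.Agent.Lib.RobT.IsTour H) (B : Finset V) (h : Robust ζ H B) :
    Pool.Agent.Lib.RobT.Rob (V := {v : V // v ∈ B}) ζ (fun a b => H a b) := by
  classical
  have hcB : Fintype.card {v : V // v ∈ B} = B.card := Fintype.card_coe B
  rcases h with h | h
  · intro A
    have hA : A.map (Function.Embedding.subtype _) ⊆ B := by
      intro v hv
      obtain ⟨a, -, rfl⟩ := mem_map.1 hv
      exact a.2
    have h2 := h _ hA
    rw [card_map] at h2
    have e1 : ((Aᶜ).card : ℝ) = (B.card : ℝ) - A.card := by
      rw [card_compl, hcB, Nat.cast_sub (hcB ▸ card_le_univ A)]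
    rw [e1]
    refine h2.trans (le_of_eq ?_)
    unfold arcsOut Pool.Agent.Lib.RobT.eN
    norm_cast
    symm
    apply card_bij (fun p _ => ((p.1 : V), (p.2 : V)))
    · intro p hp
      simp only [mem_filter, mem_product, mem_compl] at hp
      simp only [mem_filter, mem_product, mem_sdiff, mem_map, Function.Embedding.subtype_apply]
      refine ⟨⟨⟨p.1, hp.1.1, rfl⟩, p.2.2, ?_⟩, hp.2⟩
      rintro ⟨a, ha, ha2⟩
      exact hp.1.2 (Subtype.ext ha2 ▸ ha)
    · intro p _ q _ hpq
      simp only [Prod.mk.injEq] at hpq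
      exact Prod.ext (Subtype.ext hpq.1) (Subtype.ext hpq.2)
    · intro p hp
      simp only [mem_filter, mem_product, mem_sdiff, mem_map,
        Function.Embedding.subtype_apply] at hp
      obtain ⟨⟨⟨a, ha, ha2⟩, hb, hb2⟩, hH⟩ := hp
      refine ⟨(a, ⟨p.2, hb⟩), ?_, ?_⟩
      · simp only [mem_filter, mem_product, mem_compl]
        refine ⟨⟨ha, fun h3 => hb2 ⟨_, h3, rfl⟩⟩, ?_⟩
        rw [ha2]
        exact hH
      · exact Prod.ext ha2 rfl
  · have hR' : Pool.Agent.Lib.RobT.IsTour (V := {v : V // v ∈ B}) (fun a b => H a b) :=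
      ⟨fun u => hR.irr u, fun u v h => hR.asym u v h,
        fun u v h => hR.tot u v fun h1 => h (Subtype.ext h1)⟩
    apply Pool.Agent.Lib.RobT.rob_of_semideg hζ hR'
    intro s v
    rw [hcB]
    cases s with
    | true =>
      refine (h v v.2).1.trans (le_of_eq ?_)
      norm_cast
      symm
      apply card_bij (fun (u : {v : V // v ∈ B}) _ => (u : V))
      · intro u hu
        simp only [Pool.Agent.Lib.RobT.Nb, Pool.Agent.Lib.RobT.Arc, mem_filter, mem_univ,
          true_and] at hu
        rw [mem_filter]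
        exact ⟨u.2, by simpa using hu⟩
      · intro u _ u' _ hu
        exact Subtype.ext hu
      · intro u hu
        rw [mem_filter] at hu
        refine ⟨⟨u, hu.1⟩, ?_, rfl⟩
        simpa [Pool.Agent.Lib.RobT.Nb, Pool.Agent.Lib.RobT.Arc] using hu.2
    | false =>
      refine (h v v.2).2.trans (le_of_eq ?_)
      norm_cast
      symm
      apply card_bij (fun (u : {v : V // v ∈ B}) _ => (u : V))
      · intro u hu
        simp only [Pool.Agent.Lib.RobT.Nb, Pool.Agent.Lib.RobT.Arc, mem_filter, mem_univ,
          true_and] at hu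
        rw [mem_filter]
        exact ⟨u.2, by simpa using hu⟩
      · intro u _ u' _ hu
        exact Subtype.ext hu
      · intro u hu
        rw [mem_filter] at hu
        refine ⟨⟨u, hu.1⟩, ?_, rfl⟩
        simpa [Pool.Agent.Lib.RobT.Nb, Pool.Agent.Lib.RobT.Arc] using hu.2

theorem result (ζ : ℝ) (hζ : 0 < ζ) (Δ K : ℕ) :
    ∃ n₀ C : ℕ, ∀ (V : Type) [Fintype V] (H : V → V → Prop), IsTournament H →
      ∀ c : V → ℕ, (∀ u v, c u < c v → H u v) →
      ∀ (U : Type) [Fintype U] (T : U → U → Prop), IsOrientedTree T → MaxDegreeLE Δ T →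
      ((Fintype.card U ≤ Fintype.card V ∧
          ∀ i, (block c i).card ≤ 1 ∨ (n₀ ≤ (block c i).card ∧ Robust ζ H (block c i))) ∨
        (Fintype.card U + C ≤ Fintype.card V ∧
          ∀ i, (block c i).card ≤ K ∨ Robust ζ H (block c i))) →
      ∃ φ : U → V, Function.Injective φ ∧ ∀ x y, T x y → H (φ x) (φ y) := by
  classical
  obtain ⟨n₀, C, h⟩ := Pool.Agent.Lib.RobT.blocks ζ Δ K hζ
  refine ⟨n₀, C, ?_⟩
  intro V _ H hH c hc U _ T hT hd hcond
  have hR : Pool.Agent.Lib.RobT.IsTour H := by
    refine ⟨hH.1, fun u v huv hvu => ?_, fun u v huv => ?_⟩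
    · by_cases h0 : u = v
      · subst h0
        exact hH.1 u huv
      · exact (hH.2 u v h0).1 huv hvu
    · by_cases h0 : H v u
      · exact Or.inr h0
      · exact Or.inl ((hH.2 u v huv).2 h0)
  refine h V H c hR hc U T ⟨hT.1, hT.2, hd⟩ ?_
  rcases hcond with ⟨h1, h2⟩ | ⟨h1, h2⟩
  · refine Or.inl ⟨h1, fun i => ?_⟩
    rcases h2 i with h3 | ⟨h3, h4⟩
    · exact Or.inl h3
    · exact Or.inr ⟨h3, by convert rob_block hζ hR (Pool.Agent.Lib.RobT.bl c i) h4⟩
  · refine Or.inr ⟨h1, fun i => ?_⟩
    rcases h2 i with h3 | h4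
    · exact Or.inl h3
    · exact Or.inr (by convert rob_block hζ hR (Pool.Agent.Lib.RobT.bl c i) h4)

end Pool.Agent.Results.MP_b931a8_co.RobustTournaments
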